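import Pool.Agent.helper90.FL.Spec

/-! Row CN4 of project FL (MP_fe76a7_co). -/

set_option autoImplicit false

namespace Pool.Agent.helper90.FL

open Finset Polynomial
open scoped Classical

theorem CN4 : CN4_stmt := by
  intro V E _ _ s t q A B S e _ hS hcut
  unfold N
  have hemp : IsEmpty {f : E → ZMod q // IsF s t q A B f} := by
    refine ⟨fun f => ?_⟩
    obtain ⟨f, hf1, hf2⟩ := f
    have h := hf2 S hS
    rw [Finset.sum_filter, Finset.sum_filter] at h
    have h0 : ∑ a ∈ A, ((if s a ∈ S then f a else 0) - (if t a ∈ S then f a else 0)) = 0 := by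
      rw [Finset.sum_sub_distrib, h, sub_self]
    have he : e ∈ cut s t A S := by rw [hcut]; exact Finset.mem_singleton_self e
    have he' := he
    unfold cut at he'
    rw [Finset.mem_filter] at he'
    obtain ⟨heA, hsep⟩ := he'
    have h1 : ∑ a ∈ A, ((if s a ∈ S then f a else 0) - (if t a ∈ S then f a else 0)) =
        (if s e ∈ S then f e else 0) - (if t e ∈ S then f e else 0) := by
      refine Finset.sum_eq_single_of_mem e heA ?_
      intro a ha hae
      by_cases hc : (s a ∈ S ↔ t a ∈ S)
      · by_cases hs : s a ∈ S
        · rw [if_pos hs, if_pos (hc.1 hs), sub_self]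
        · rw [if_neg hs, if_neg (fun h' => hs (hc.2 h')), sub_self]
      · exfalso
        have hmem : a ∈ cut s t A S := by
          unfold cut
          rw [Finset.mem_filter]
          exact ⟨ha, hc⟩
        rw [hcut, Finset.mem_singleton] at hmem
        exact hae hmem
    rw [h1] at h0
    have hne : f e ≠ 0 := (hf1 e).2 heA
    by_cases hs : s e ∈ S
    · have ht : t e ∉ S := fun h' => hsep ⟨fun _ => h', fun _ => hs⟩
      rw [if_pos hs, if_neg ht, sub_zero] at h0
      exact hne h0
    · have ht : t e ∈ S := by
        by_contra h'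
        exact hsep ⟨fun h'' => absurd h'' hs, fun h'' => absurd h'' h'⟩
      rw [if_neg hs, if_pos ht, zero_sub, neg_eq_zero] at h0
      exact hne h0
  exact Nat.card_of_isEmpty

end Pool.Agent.helper90.FL
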